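import Pool.Agent.Lib_MP_e12783.HubCol

/-!
# The colouring of the other vertices
-/

namespace Pool.Agent.Lib_MP_e12783

open Finset

variable {V : Type} [Fintype V] [DecidableEq V]

/-- the number of two-colourings with fewer than `s` elements of `G` of colour `c` -/
theorem card_few_le (G : Finset V) (c : Bool) (s : ℕ) :
    ((univ : Finset (V → Bool)).filter fun ω => (G.filter fun u => ω u = c).card < s).card *
      3 ^ G.card ≤ 3 ^ s * 2 ^ G.card * 2 ^ Fintype.card V := by
  -- the weighted sum
  have h1 : ∑ ω : V → Bool, 3 ^ (G.filter fun u => ω u ≠ c).card =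
      2 ^ G.card * 2 ^ Fintype.card V := by
    have h2 : ∀ ω : V → Bool, 3 ^ (G.filter fun u => ω u ≠ c).card =
        ∏ x : V, (if x ∈ G ∧ ω x ≠ c then 3 else 1) := by
      intro ω
      rw [Finset.prod_ite, Finset.prod_const, Finset.prod_const_one, mul_one]
      congr 2
      ext x
      simp
    have h3 : ∑ ω : V → Bool, ∏ x : V, (if x ∈ G ∧ ω x ≠ c then 3 else 1) =
        ∏ x : V, ∑ b : Bool, (if x ∈ G ∧ b ≠ c then 3 else 1) := by
      rw [Finset.prod_univ_sum, Fintype.piFinset_univ]
    have h4 : ∀ x : V, ∑ b : Bool, (if x ∈ G ∧ b ≠ c then 3 else 1) =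
        (if x ∈ G then 2 else 1) * 2 := by
      intro x
      by_cases hx : x ∈ G <;> cases c <;> simp [hx]
    calc ∑ ω : V → Bool, 3 ^ (G.filter fun u => ω u ≠ c).card
        = ∑ ω : V → Bool, ∏ x : V, (if x ∈ G ∧ ω x ≠ c then 3 else 1) :=
          Finset.sum_congr rfl fun ω _ => h2 ω
      _ = ∏ x : V, ((if x ∈ G then 2 else 1) * 2) := by
          rw [h3]
          exact Finset.prod_congr rfl fun x _ => h4 x
      _ = _ := by
          rw [Finset.prod_mul_distrib, Finset.prod_const, Finset.card_univ, Finset.prod_ite,
            Finset.prod_const, Finset.prod_const_one, mul_one]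
          congr 3
          ext x
          simp
  have h5 : ∑ ω ∈ ((univ : Finset (V → Bool)).filter fun ω =>
      (G.filter fun u => ω u = c).card < s), 3 ^ G.card ≤
      ∑ ω ∈ ((univ : Finset (V → Bool)).filter fun ω =>
      (G.filter fun u => ω u = c).card < s), 3 ^ s * 3 ^ (G.filter fun u => ω u ≠ c).card := by
    refine Finset.sum_le_sum fun ω hω => ?_
    rw [Finset.mem_filter] at hω
    rw [← pow_add]
    refine Nat.pow_le_pow_right (by norm_num) ?_
    have h6 := Finset.card_filter_add_card_filter_not (s := G) (fun u => ω u = c)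
    have h7 := hω.2
    have h8 : (G.filter fun u => ω u ≠ c).card = (G.filter fun u => ¬ (ω u = c)).card := rfl
    omega
  rw [Finset.sum_const, smul_eq_mul] at h5
  refine h5.trans ?_
  rw [← Finset.mul_sum, mul_assoc]
  refine Nat.mul_le_mul_left _ ?_
  rw [← h1]
  exact Finset.sum_le_sum_of_subset (Finset.filter_subset _ _)

open Classical in
/-- the final colour of a vertex -/
noncomputable def col (N : V → Finset V) (H : Finset V) (m d : ℕ) (χ ω : V → Bool) (v : V) : Bool :=
  if v ∈ H then χ v else
    if ¬ Killed N H m d χ true v ∧ ¬ Killed N H m d χ false v then ω v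
    else decide (¬ Killed N H m d χ true v)

variable {N : V → Finset V} {H : Finset V} {m d : ℕ}

omit [Fintype V] in
theorem col_capable {χ ω : V → Bool} (hN : ∀ v, (N v).card = d) (hm : 2 * m ≤ d) (hd : 0 < d)
    (hχ : ∀ a ∈ H, ∀ c, ¬ Killed N H m d χ c a) (v : V) :
    ¬ Killed N H m d χ (col N H m d χ ω v) v := by
  classical
  intro hk
  by_cases hv : v ∈ H
  · exact hχ v hv _ hk
  · unfold col at hk
    rw [if_neg hv] at hk
    by_cases hb : ¬ Killed N H m d χ true v ∧ ¬ Killed N H m d χ false v
    · rw [if_pos hb] at hk
      cases hω : ω v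
      · rw [hω] at hk
        exact hb.2 hk
      · rw [hω] at hk
        exact hb.1 hk
    · rw [if_neg hb] at hk
      by_cases ht : Killed N H m d χ true v
      · have : decide (¬ Killed N H m d χ true v) = false := by simp [ht]
        rw [this] at hk
        exact not_killed_both hN hm hd v ht hk
      · have : decide (¬ Killed N H m d χ true v) = true := by simp [ht]
        rw [this] at hk
        exact ht hk

omit [Fintype V] in
/-- good out-neighbours receive the colour `c` as soon as their coin shows `c` -/
theorem col_eq {χ ω : V → Bool} {c : Bool} {u : V}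
    (hu : ¬ Bad H χ c (Killed N H m d χ c) u) (hω : ω u = c) : col N H m d χ ω u = c := by
  classical
  unfold Bad at hu
  push Not at hu
  unfold col
  by_cases hv : u ∈ H
  · rw [if_pos hv]
    exact hu.1 hv
  · rw [if_neg hv]
    have hk := hu.2 hv
    by_cases hb : ¬ Killed N H m d χ true u ∧ ¬ Killed N H m d χ false u
    · rw [if_pos hb]
      exact hω
    · rw [if_neg hb]
      cases c
      · have : Killed N H m d χ true u := by
          by_contra h
          exact hb ⟨h, hk⟩
        simp [this]
      · simp [hk]

open Classical in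
/-- **The combinatorial core.** -/
theorem exists_split (hN : ∀ v, (N v).card = d) (hm : 2 * m ≤ d) (hd : 0 < d) (hm0 : 0 < m)
    (χ : V → Bool) (hχ : ∀ a ∈ H, ∀ c, ¬ Killed N H m d χ c a) (s B M : ℕ) (hs : 0 < s)
    (hM : 2 < M) (hB : 8 * (d * B) ≤ M) (hMs : M * 3 ^ s * 2 ^ m ≤ 3 ^ m)
    (hin : ∀ u, u ∉ H → ((univ : Finset V).filter fun v => u ∈ N v).card ≤ B) [Nonempty V] :
    ∃ f : V → Bool, (∀ v, s ≤ ((N v).filter fun u => f u = f v).card) ∧
      (∃ v, f v = true) ∧ (∃ v, f v = false) := by
  obtain ⟨ω, hω⟩ := prod_lll (V := V) (ι := V × Bool)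
    (fun i => (univ : Finset (V → Bool)).filter fun ω => ¬ Killed N H m d χ i.2 i.1 ∧
      ((N i.1).filter fun u => col N H m d χ ω u = i.2).card < s)
    (fun i => N i.1 \ H)
    (by
      intro i ω ω' h hω
      rw [Finset.mem_filter] at hω ⊢
      refine ⟨Finset.mem_univ _, hω.2.1, ?_⟩
      have : ((N i.1).filter fun u => col N H m d χ ω' u = i.2) =
          ((N i.1).filter fun u => col N H m d χ ω u = i.2) := by
        refine Finset.filter_congr fun u hu => ?_
        have h2 : col N H m d χ ω' u = col N H m d χ ω u := by
          unfold col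
          by_cases huH : u ∈ H
          · rw [if_pos huH, if_pos huH]
          · rw [if_neg huH, if_neg huH, h u (Finset.mem_sdiff.mpr ⟨hu, huH⟩)]
        rw [h2]
      rw [this]
      exact hω.2.2)
    M (2 * (d * B)) hM (by omega)
    (by
      intro i
      have h1 : ((univ : Finset (V × Bool)).filter fun j =>
          ¬ Disjoint (N i.1 \ H) (N j.1 \ H)) ⊆
          ((N i.1 \ H).biUnion fun u => (univ : Finset V).filter fun v => u ∈ N v) ×ˢ
            (univ : Finset Bool) := by
        intro j hj
        rw [Finset.mem_filter] at hj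
        obtain ⟨u, hu1, hu2⟩ := Finset.not_disjoint_iff.mp hj.2
        rw [Finset.mem_product]
        refine ⟨?_, Finset.mem_univ _⟩
        rw [Finset.mem_biUnion]
        exact ⟨u, hu1, Finset.mem_filter.mpr ⟨Finset.mem_univ _, (Finset.mem_sdiff.mp hu2).1⟩⟩
      refine (Finset.card_le_card h1).trans ?_
      rw [Finset.card_product, Finset.card_univ, Fintype.card_bool, mul_comm]
      refine Nat.mul_le_mul_left _ ?_
      refine Finset.card_biUnion_le.trans ?_
      refine (Finset.sum_le_sum fun u hu => hin u (Finset.mem_sdiff.mp hu).2).trans ?_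
      rw [Finset.sum_const, smul_eq_mul]
      refine Nat.mul_le_mul_right _ ?_
      rw [← hN i.1]
      exact Finset.card_le_card Finset.sdiff_subset)
    (by
      intro i
      by_cases hk : Killed N H m d χ i.2 i.1
      · have : ((univ : Finset (V → Bool)).filter fun ω => ¬ Killed N H m d χ i.2 i.1 ∧
            ((N i.1).filter fun u => col N H m d χ ω u = i.2).card < s) = ∅ := by
          rw [Finset.filter_eq_empty_iff]
          intro ω _ h
          exact h.1 hk
        rw [this]
        simp
      · set G : Finset V := (N i.1).filter fun u => ¬ Bad H χ i.2 (Killed N H m d χ i.2) u with hG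
        have hGm : m ≤ G.card := by
          have h1 := card_bad_le hk
          have h2 := Finset.card_filter_add_card_filter_not (s := N i.1)
            (Bad H χ i.2 (Killed N H m d χ i.2))
          rw [hN] at h2
          rw [hG]
          omega
        have h3 : ((univ : Finset (V → Bool)).filter fun ω => ¬ Killed N H m d χ i.2 i.1 ∧
            ((N i.1).filter fun u => col N H m d χ ω u = i.2).card < s).card ≤
            ((univ : Finset (V → Bool)).filter fun ω =>
              (G.filter fun u => ω u = i.2).card < s).card := by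
          refine Finset.card_le_card ?_
          intro ω hω
          rw [Finset.mem_filter] at hω ⊢
          refine ⟨Finset.mem_univ _, lt_of_le_of_lt (Finset.card_le_card ?_) hω.2.2⟩
          intro u hu
          rw [Finset.mem_filter] at hu ⊢
          have hu1 := Finset.mem_filter.mp hu.1
          exact ⟨hu1.1, col_eq hu1.2 hu.2⟩
        have h4 := card_few_le G i.2 s
        set X := ((univ : Finset (V → Bool)).filter fun ω =>
              (G.filter fun u => ω u = i.2).card < s).card with hX
        have h5 : X * M * 3 ^ G.card ≤ 2 ^ Fintype.card V * 3 ^ G.card := by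
          have h6 : M * 3 ^ s * 2 ^ G.card ≤ 3 ^ G.card := by
            obtain ⟨e, he⟩ := Nat.exists_eq_add_of_le hGm
            rw [he, pow_add, pow_add]
            calc M * 3 ^ s * (2 ^ m * 2 ^ e) = (M * 3 ^ s * 2 ^ m) * 2 ^ e := by ring
              _ ≤ 3 ^ m * 3 ^ e := Nat.mul_le_mul hMs (Nat.pow_le_pow_left (by norm_num) e)
          calc X * M * 3 ^ G.card = (X * 3 ^ G.card) * M := by ring
            _ ≤ (3 ^ s * 2 ^ G.card * 2 ^ Fintype.card V) * M := Nat.mul_le_mul_right _ h4
            _ = (M * 3 ^ s * 2 ^ G.card) * 2 ^ Fintype.card V := by ring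
            _ ≤ 3 ^ G.card * 2 ^ Fintype.card V := Nat.mul_le_mul_right _ h6
            _ = _ := by ring
        have h7 : X * M ≤ 2 ^ Fintype.card V := Nat.le_of_mul_le_mul_right h5 (by positivity)
        exact (Nat.mul_le_mul_right _ h3).trans h7)
  have key : ∀ v c, ¬ Killed N H m d χ c v →
      s ≤ ((N v).filter fun u => col N H m d χ ω u = c).card := by
    intro v c hk
    by_contra hlt
    push Not at hlt
    exact hω (v, c) (Finset.mem_filter.mpr ⟨Finset.mem_univ _, hk, hlt⟩)
  -- a vertex capable in both colours
  have hex : ∃ v, ∀ c, ¬ Killed N H m d χ c v := by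
    by_cases hHe : H.Nonempty
    · obtain ⟨a, ha⟩ := hHe
      exact ⟨a, fun c => hχ a ha c⟩
    · rw [Finset.not_nonempty_iff_eq_empty] at hHe
      obtain ⟨v⟩ := ‹Nonempty V›
      refine ⟨v, fun c hk => ?_⟩
      obtain ⟨n, hn⟩ := hk
      have : ∀ n v, ¬ kst N H m d χ c n v := by
        intro n
        induction n with
        | zero => intro v h; exact h
        | succ n ih =>
          intro v h
          have h' : d < ((N v).filter (Bad H χ c (kst N H m d χ c n))).card + m := h
          have h2 : ((N v).filter (Bad H χ c (kst N H m d χ c n))) = ∅ := by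
            rw [Finset.filter_eq_empty_iff]
            intro u _ hb
            rcases hb with hb | hb
            · rw [hHe] at hb
              exact absurd hb.1 (Finset.notMem_empty u)
            · exact ih u hb.2
          rw [h2, Finset.card_empty] at h'
          omega
      exact this n v hn
  obtain ⟨v₀, hv₀⟩ := hex
  have hcol : ∀ c, ∃ v, col N H m d χ ω v = c := by
    intro c
    have h1 : 0 < ((N v₀).filter fun u => col N H m d χ ω u = c).card :=
      lt_of_lt_of_le hs (key v₀ c (hv₀ c))
    obtain ⟨u, hu⟩ := Finset.card_pos.mp h1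
    exact ⟨u, (Finset.mem_filter.mp hu).2⟩
  exact ⟨col N H m d χ ω, fun v => key v _ (col_capable hN hm hd hχ v), hcol true, hcol false⟩

end Pool.Agent.Lib_MP_e12783
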