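import Pool.Agent.Lib_MP_e12783.Coin

/-!
# Parameters
-/

namespace Pool.Agent.Lib_MP_e12783

open Finset

/-- choice of `r`, `α` -/
theorem exists_alpha (ε : ℝ) (h0 : 0 < ε) : ∃ (r : ℕ) (α : ℝ), r ≠ 0 ∧ 1 / 2 ≤ α ∧
    α < 1 ∧ (1 + α ^ r) / 2 ≤ α ∧ α * (2 - ε) < 1 := by
  have ht : Filter.Tendsto (fun r : ℕ => (1 + (3 / 4 : ℝ) ^ r) * (1 - ε / 2)) Filter.atTop
      (nhds ((1 + 0) * (1 - ε / 2))) := by
    refine Filter.Tendsto.mul_const _ (Filter.Tendsto.const_add _ ?_)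
    exact tendsto_pow_atTop_nhds_zero_of_lt_one (by norm_num) (by norm_num)
  have hlt : (1 + 0) * (1 - ε / 2) < 1 := by linarith
  have h1 := (ht.eventually_lt_const hlt).and (Filter.eventually_ge_atTop 3)
  obtain ⟨r, hr, hr3⟩ := h1.exists
  have h34 : (3 / 4 : ℝ) ^ r ≤ 1 / 2 := by
    calc (3 / 4 : ℝ) ^ r ≤ (3 / 4) ^ 3 := pow_le_pow_of_le_one (by norm_num) (by norm_num) hr3
      _ ≤ 1 / 2 := by norm_num
  have h34' : (0 : ℝ) < (3 / 4) ^ r := by positivity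
  refine ⟨r, (1 + (3 / 4) ^ r) / 2, by omega, by linarith, by linarith, ?_, by linarith⟩
  have : ((1 + (3 / 4 : ℝ) ^ r) / 2) ^ r ≤ (3 / 4) ^ r :=
    pow_le_pow_left₀ (by linarith) (by linarith) r
  linarith

/-- choice of `k` -/
theorem exists_k {q : ℝ} (h0 : 0 ≤ q) (h1 : q < 1) (r : ℕ) :
    ∃ k : ℕ, 2 ≤ k ∧ r ≤ k ∧ q ^ k * 2 ^ r ≤ 1 / 2 := by
  have ht : Filter.Tendsto (fun k : ℕ => q ^ k * 2 ^ r) Filter.atTop (nhds (0 * 2 ^ r)) :=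
    (tendsto_pow_atTop_nhds_zero_of_lt_one h0 h1).mul_const _
  have hlt : (0 : ℝ) * 2 ^ r < 1 / 2 := by norm_num
  obtain ⟨k, hk, hk2, hkr⟩ := ((ht.eventually_lt_const hlt).and
    ((Filter.eventually_ge_atTop 2).and (Filter.eventually_ge_atTop r))).exists
  exact ⟨k, hk2, hkr, hk.le⟩

/-- choice of the size -/
theorem exists_m₀ (k : ℕ) : ∃ m₀ : ℕ, ∀ m ≥ m₀, 22 * (k : ℝ) * m * (264 / 100) ^ m ≤ 3 ^ m := by
  have ht : Filter.Tendsto (fun m : ℕ => (22 * (k : ℝ)) * (m * (88 / 100 : ℝ) ^ m)) Filter.atTop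
      (nhds ((22 * (k : ℝ)) * 0)) := by
    refine Filter.Tendsto.const_mul _ ?_
    exact tendsto_self_mul_const_pow_of_lt_one (by norm_num) (by norm_num)
  have hlt : (22 * (k : ℝ)) * 0 < 1 := by norm_num
  obtain ⟨m₀, hm₀⟩ := Filter.eventually_atTop.mp (ht.eventually_lt_const hlt)
  refine ⟨m₀, fun m hm => ?_⟩
  have h1 := hm₀ m hm
  have h2 : (264 / 100 : ℝ) ^ m = (88 / 100) ^ m * 3 ^ m := by
    rw [← mul_pow]
    norm_num
  rw [h2]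
  have h3 : (0 : ℝ) < 3 ^ m := by positivity
  calc 22 * (k : ℝ) * m * ((88 / 100) ^ m * 3 ^ m)
      = (22 * (k : ℝ)) * (m * (88 / 100 : ℝ) ^ m) * 3 ^ m := by ring
    _ ≤ 1 * 3 ^ m := mul_le_mul_of_nonneg_right h1.le h3.le
    _ = 3 ^ m := one_mul _

/-- the hub inequality -/
theorem hub_ineq {ε α : ℝ} {r k m d : ℕ} (hε0 : 0 < ε) (hε1 : ε < 1) (hα : 1 / 2 ≤ α) (hα1 : α < 1)
    (hk : (α * (2 - ε)) ^ k * 2 ^ r ≤ 1 / 2) (hq : α * (2 - ε) < 1) (hrk : r ≤ k) (hm : k * m ≤ d)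
    (hm4 : 4 ≤ m) :
    α ^ (d - r * m) * ((8 * ⌊(2 - ε) ^ d⌋₊ + 3 : ℕ) : ℝ) ≤ 1 := by
  have h2ε : (1 : ℝ) ≤ 2 - ε := by linarith
  have hα0 : 0 < α := by linarith
  have hpow1 : (1 : ℝ) ≤ (2 - ε) ^ d := one_le_pow₀ h2ε
  have hfl : ((⌊(2 - ε) ^ d⌋₊ : ℕ) : ℝ) ≤ (2 - ε) ^ d := Nat.floor_le (by positivity)
  have hM : ((8 * ⌊(2 - ε) ^ d⌋₊ + 3 : ℕ) : ℝ) ≤ 11 * (2 - ε) ^ d := by
    push_cast
    linarith
  have hrm : r * m ≤ d := (Nat.mul_le_mul_right _ hrk).trans hm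
  have h1 : α ^ (d - r * m) ≤ α ^ d * 2 ^ (r * m) := by
    have h2 : α ^ d = α ^ (d - r * m) * α ^ (r * m) := by
      rw [← pow_add]
      congr 1
      omega
    have h3 : (1 : ℝ) ≤ α ^ (r * m) * 2 ^ (r * m) := by
      rw [← mul_pow]
      exact one_le_pow₀ (by linarith)
    calc α ^ (d - r * m) = α ^ (d - r * m) * 1 := (mul_one _).symm
      _ ≤ α ^ (d - r * m) * (α ^ (r * m) * 2 ^ (r * m)) :=
          mul_le_mul_of_nonneg_left h3 (by positivity)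
      _ = α ^ d * 2 ^ (r * m) := by rw [h2]; ring
  have hq0 : 0 ≤ α * (2 - ε) := by positivity
  calc α ^ (d - r * m) * ((8 * ⌊(2 - ε) ^ d⌋₊ + 3 : ℕ) : ℝ)
      ≤ (α ^ d * 2 ^ (r * m)) * (11 * (2 - ε) ^ d) :=
        mul_le_mul h1 hM (by positivity) (by positivity)
    _ = 11 * ((α * (2 - ε)) ^ d * 2 ^ (r * m)) := by rw [mul_pow]; ring
    _ ≤ 11 * ((α * (2 - ε)) ^ (k * m) * 2 ^ (r * m)) := by
        refine mul_le_mul_of_nonneg_left ?_ (by norm_num)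
        exact mul_le_mul_of_nonneg_right (pow_le_pow_of_le_one hq0 hq.le hm) (by positivity)
    _ = 11 * ((α * (2 - ε)) ^ k * 2 ^ r) ^ m := by
        rw [mul_pow ((α * (2 - ε)) ^ k), ← pow_mul, ← pow_mul]
    _ ≤ 11 * (1 / 2) ^ m := by
        refine mul_le_mul_of_nonneg_left ?_ (by norm_num)
        exact pow_le_pow_left₀ (by positivity) hk m
    _ ≤ 11 * (1 / 2) ^ 4 := by
        refine mul_le_mul_of_nonneg_left ?_ (by norm_num)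
        exact pow_le_pow_of_le_one (by norm_num) (by norm_num) hm4
    _ ≤ 1 := by norm_num

/-- the coin inequality -/
theorem coin_ineq {δ : ℝ} {k m d : ℕ} (hδ0 : 0 < δ) (hδ : (1 + δ) ^ (2 * k) ≤ 11 / 10)
    (hd : d ≤ 2 * k * m) (hd0 : 0 < d) (hm₀ : 22 * (k : ℝ) * m * (264 / 100) ^ m ≤ 3 ^ m) :
    (8 * (d * ⌊(1 + δ) ^ d⌋₊) + 3) * 3 ^ (m / 8) * 2 ^ m ≤ 3 ^ m := by
  have h1δ : (1 : ℝ) ≤ 1 + δ := by linarith
  have hpow1 : (1 : ℝ) ≤ (1 + δ) ^ d := one_le_pow₀ h1δ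
  have hfl : ((⌊(1 + δ) ^ d⌋₊ : ℕ) : ℝ) ≤ (1 + δ) ^ d := Nat.floor_le (by positivity)
  have hd1 : (1 : ℝ) ≤ d := by exact_mod_cast hd0
  have hM : ((8 * (d * ⌊(1 + δ) ^ d⌋₊) + 3 : ℕ) : ℝ) ≤ 11 * (d * (1 + δ) ^ d) := by
    push_cast
    have h1 : (d : ℝ) * ⌊(1 + δ) ^ d⌋₊ ≤ d * (1 + δ) ^ d :=
      mul_le_mul_of_nonneg_left hfl (by positivity)
    have h2 : (1 : ℝ) ≤ d * (1 + δ) ^ d := one_le_mul_of_one_le_of_one_le hd1 hpow1
    linarith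
  have h3 : ((1 + δ) ^ d : ℝ) ≤ (11 / 10) ^ m := by
    calc (1 + δ) ^ d ≤ (1 + δ) ^ (2 * k * m) := pow_le_pow_right₀ h1δ hd
      _ = ((1 + δ) ^ (2 * k)) ^ m := by rw [pow_mul]
      _ ≤ (11 / 10) ^ m := pow_le_pow_left₀ (by positivity) hδ m
  have h4 : (3 : ℝ) ^ (m / 8) ≤ (6 / 5) ^ m := by
    calc (3 : ℝ) ^ (m / 8) ≤ ((6 / 5) ^ 8) ^ (m / 8) :=
          pow_le_pow_left₀ (by norm_num) (by norm_num) _
      _ = (6 / 5) ^ (8 * (m / 8)) := by rw [pow_mul]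
      _ ≤ (6 / 5) ^ m := pow_le_pow_right₀ (by norm_num) (Nat.mul_div_le m 8)
  have h5 : (d : ℝ) ≤ 2 * k * m := by exact_mod_cast hd
  have h6 : ((((8 * (d * ⌊(1 + δ) ^ d⌋₊) + 3) * 3 ^ (m / 8) * 2 ^ m : ℕ)) : ℝ) ≤
      ((3 ^ m : ℕ) : ℝ) := by
    rw [Nat.cast_mul, Nat.cast_mul]
    push_cast at hM ⊢
    calc (8 * ((d : ℝ) * ⌊(1 + δ) ^ d⌋₊) + 3) * 3 ^ (m / 8) * 2 ^ m
        ≤ (11 * (d * (1 + δ) ^ d)) * (6 / 5) ^ m * 2 ^ m := by
          refine mul_le_mul_of_nonneg_right ?_ (by positivity)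
          exact mul_le_mul hM h4 (by positivity) (by positivity)
      _ ≤ (11 * ((2 * k * m) * (11 / 10) ^ m)) * (6 / 5) ^ m * 2 ^ m := by
          refine mul_le_mul_of_nonneg_right (mul_le_mul_of_nonneg_right
            (mul_le_mul_of_nonneg_left ?_ (by norm_num)) (by positivity)) (by positivity)
          exact mul_le_mul h5 h3 (by positivity) (by positivity)
      _ = 22 * (k : ℝ) * m * (264 / 100) ^ m := by
          have : (264 / 100 : ℝ) ^ m = (11 / 10) ^ m * (6 / 5) ^ m * 2 ^ m := by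
            rw [← mul_pow, ← mul_pow]
            norm_num
          rw [this]
          ring
      _ ≤ 3 ^ m := hm₀
  exact_mod_cast h6

open Classical in
/-- **Few hubs.** -/
theorem few_hubs (ε : ℝ) (hε0 : 0 < ε) (hε1 : ε < 1) :
    ∃ δ : ℝ, 0 < δ ∧ ∃ d₀ : ℕ, ∀ d ≥ d₀, ∀ (V : Type) [Fintype V] [Nonempty V]
      (N : V → Finset V) (H : Finset V), (∀ v, (N v).card = d) →
      (∀ u ∉ H, (((univ : Finset V).filter fun v => u ∈ N v).card : ℝ) ≤ (1 + δ) ^ d) →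
      (∀ a ∈ H, ((H.filter fun b => ∃ s ∈ H, Reach (fun v u => u ∈ N v) (H : Set V) a s ∧
        Reach (fun v u => u ∈ N v) (H : Set V) b s).card : ℝ) ≤ (2 - ε) ^ d) →
      2 ≤ δ * d ∧ ∃ f : V → Bool, (∀ v, δ * d ≤ (((N v).filter fun u => f u = f v).card : ℝ)) ∧
        (∃ v, f v = true) ∧ (∃ v, f v = false) := by
  obtain ⟨r, α, hr, hα, hα1, hαr, hq⟩ := exists_alpha ε hε0
  have hα0 : 0 < α := by linarith
  have hq0 : 0 ≤ α * (2 - ε) := mul_nonneg hα0.le (by linarith)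
  obtain ⟨k, hk2, hrk, hk⟩ := exists_k hq0 hq r
  obtain ⟨m₀, hm₀⟩ := exists_m₀ k
  -- the number `y`
  have hkpos : (0 : ℝ) < k := by
    have : 0 < k := by omega
    exact_mod_cast this
  obtain ⟨y, hy1, hy⟩ : ∃ y : ℝ, 1 < y ∧ y ^ (2 * k) = 11 / 10 := by
    refine ⟨(11 / 10) ^ (((2 * k : ℕ) : ℝ)⁻¹), ?_, ?_⟩
    · refine Real.one_lt_rpow (by norm_num) ?_
      push_cast
      positivity
    · exact Real.rpow_inv_natCast_pow (by norm_num) (by omega)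
  set δ : ℝ := min (y - 1) (1 / (32 * k)) with hδdef
  have hδ0 : 0 < δ := lt_min (by linarith) (by positivity)
  have hδy : 1 + δ ≤ y := by
    have := min_le_left (y - 1) (1 / (32 * (k : ℝ)))
    linarith
  have hδk : δ ≤ 1 / (32 * k) := min_le_right _ _
  have hδpow : (1 + δ) ^ (2 * k) ≤ 11 / 10 := by
    rw [← hy]
    exact pow_le_pow_left₀ (by linarith) hδy _
  refine ⟨δ, hδ0, k * (m₀ + 16) + ⌈2 / δ⌉₊, ?_⟩
  intro d hd V _ _ N H hN hin hH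
  have hd1 : k * (m₀ + 16) ≤ d := by omega
  have hd2 : (⌈2 / δ⌉₊ : ℝ) ≤ d := by
    have : ⌈2 / δ⌉₊ ≤ d := by omega
    exact_mod_cast this
  have h2δ : 2 ≤ δ * d := by
    have h1 : 2 / δ ≤ d := (Nat.le_ceil _).trans hd2
    rwa [div_le_iff₀ hδ0, mul_comm] at h1
  refine ⟨h2δ, ?_⟩
  set m := d / k with hm
  have hk0 : 0 < k := by omega
  have hmm : m₀ + 16 ≤ m := by
    rw [hm, Nat.le_div_iff_mul_le hk0, mul_comm]
    exact hd1
  have hkm : k * m ≤ d := Nat.mul_div_le d k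
  have hd3 : d ≤ 2 * k * m := by
    have h1 : d < k * (m + 1) := by
      rw [hm]
      exact Nat.lt_mul_div_succ d hk0
    nlinarith
  have hdpos : 0 < d := by
    have : 0 < k * (m₀ + 16) := by positivity
    omega
  -- the hubs
  obtain ⟨χ, hχ⟩ := exists_hub_col (N := N) (H := H) (m := m) hN hα0 hα1 hαr hr
    ⌊(2 - ε) ^ d⌋₊ (8 * ⌊(2 - ε) ^ d⌋₊ + 3) (by omega) (by omega)
    (hub_ineq hε0 hε1 hα hα1 hk hq hrk hkm (by omega))
    (fun a ha => Nat.le_floor (hH a ha))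
  -- the others
  have h2m : 2 * m ≤ d := (Nat.mul_le_mul_right _ hk2).trans hkm
  obtain ⟨f, hf1, hf2, hf3⟩ := exists_split (N := N) (H := H) (m := m) hN h2m hdpos (by omega) χ hχ
    (m / 8) ⌊(1 + δ) ^ d⌋₊ (8 * (d * ⌊(1 + δ) ^ d⌋₊) + 3) (by omega) (by omega) (by omega)
    (coin_ineq hδ0 hδpow hd3 hdpos (hm₀ m (by omega)))
    (fun u hu => Nat.le_floor (hin u hu))
  refine ⟨f, fun v => ?_, hf2, hf3⟩
  have h1 : (d : ℝ) ≤ 2 * k * m := by exact_mod_cast hd3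
  have h2 : m ≤ 16 * (m / 8) := by omega
  have h2' : (m : ℝ) ≤ 16 * ((m / 8 : ℕ) : ℝ) := by exact_mod_cast h2
  have h3 : (((m / 8 : ℕ)) : ℝ) ≤ (((N v).filter fun u => f u = f v).card : ℝ) := by
    exact_mod_cast hf1 v
  refine le_trans ?_ h3
  calc δ * d ≤ 1 / (32 * k) * d := mul_le_mul_of_nonneg_right hδk (by positivity)
    _ ≤ 1 / (32 * k) * (2 * k * m) := mul_le_mul_of_nonneg_left h1 (by positivity)
    _ = m / 16 := by field_simp; ring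
    _ ≤ ((m / 8 : ℕ) : ℝ) := by linarith

end Pool.Agent.Lib_MP_e12783
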