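import Pool.Agent.Lib_MP_626dc7_co.LLL

/-!
# The local lemma for two-colourings

Symmetric local lemma on `V → Bool`, for events `B i` determined by the coordinates in `T i`.
-/

namespace Pool.Agent.Lib_MP_e12783

open Finset Pool.Agent.Lib_MP_626dc7_co

variable {V : Type} [Fintype V] [DecidableEq V]

/-- independence of events depending on disjoint sets of coordinates -/
theorem indep (T : Finset V) (A B : Finset (V → Bool))
    (hA : ∀ ω ω' : V → Bool, (∀ x, x ∉ T → ω x = ω' x) → ω ∈ A → ω' ∈ A)
    (hB : ∀ ω ω' : V → Bool, (∀ x ∈ T, ω x = ω' x) → ω ∈ B → ω' ∈ B) :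
    (A ∩ B).card * 2 ^ Fintype.card V ≤ A.card * B.card := by
  have h2 : 2 ^ Fintype.card V = (Finset.univ : Finset (V → Bool)).card := by
    rw [Finset.card_univ, Fintype.card_fun, Fintype.card_bool]
  rw [h2, ← Finset.card_product, ← Finset.card_product]
  refine Finset.card_le_card_of_injOn
    (fun p => (T.piecewise p.2 p.1, T.piecewise p.1 p.2)) ?_ ?_
  · rintro ⟨ω, ω'⟩ hp
    simp only [Finset.coe_product, Set.mem_prod, Finset.mem_coe, Finset.mem_inter,
      Finset.mem_univ, and_true] at hp
    simp only [Finset.coe_product, Set.mem_prod, Finset.mem_coe]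
    refine ⟨hA ω _ (fun x hx => ?_) hp.1, hB ω _ (fun x hx => ?_) hp.2⟩
    · rw [Finset.piecewise_eq_of_notMem _ _ _ hx]
    · rw [Finset.piecewise_eq_of_mem _ _ _ hx]
  · rintro ⟨ω, ω'⟩ _ ⟨η, η'⟩ _ h
    simp only [Prod.mk.injEq] at h
    obtain ⟨h1, h2⟩ := h
    refine Prod.ext ?_ ?_
    · funext x
      show ω x = η x
      by_cases hx : x ∈ T
      · have := congrFun h2 x
        rwa [Finset.piecewise_eq_of_mem _ _ _ hx, Finset.piecewise_eq_of_mem _ _ _ hx] at this
      · have := congrFun h1 x
        rwa [Finset.piecewise_eq_of_notMem _ _ _ hx, Finset.piecewise_eq_of_notMem _ _ _ hx]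
          at this
    · funext x
      show ω' x = η' x
      by_cases hx : x ∈ T
      · have := congrFun h1 x
        rwa [Finset.piecewise_eq_of_mem _ _ _ hx, Finset.piecewise_eq_of_mem _ _ _ hx] at this
      · have := congrFun h2 x
        rwa [Finset.piecewise_eq_of_notMem _ _ _ hx, Finset.piecewise_eq_of_notMem _ _ _ hx]
          at this

open Classical in
/-- **Symmetric local lemma for two-colourings.** -/
theorem prod_lll {ι : Type} [Fintype ι] (B : ι → Finset (V → Bool)) (T : ι → Finset V)
    (hB : ∀ i, ∀ ω ω' : V → Bool, (∀ x ∈ T i, ω x = ω' x) → ω ∈ B i → ω' ∈ B i)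
    (M D : ℕ) (hM : 2 < M) (hD : 4 * D ≤ M)
    (hN : ∀ i, ((univ : Finset ι).filter fun j => ¬ Disjoint (T i) (T j)).card ≤ D)
    (hcard : ∀ i, (B i).card * M ≤ 2 ^ Fintype.card V) :
    ∃ ω : V → Bool, ∀ i, ω ∉ B i := by
  obtain ⟨ω, _, hω⟩ := lopsided_lll (Finset.univ : Finset (V → Bool)) Finset.univ_nonempty B
    (Finset.univ : Finset ι) (fun i => (univ : Finset ι).filter fun j => ¬ Disjoint (T i) (T j))
    M D hM (fun i _ => hN i) hD (by
      intro i _ S _ hS
      have h1 := indep (T i) (avoid univ B S) (B i) (by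
        intro ω ω' hωω' hω
        rw [mem_avoid] at hω ⊢
        refine ⟨Finset.mem_univ _, fun s hs hs' => hω.2 s hs ?_⟩
        have hdis : Disjoint (T i) (T s) := by
          by_contra hnd
          exact Finset.disjoint_left.mp hS hs (Finset.mem_filter.mpr ⟨Finset.mem_univ _, hnd⟩)
        exact hB s ω' ω (fun x hx => (hωω' x (Finset.disjoint_right.mp hdis hx)).symm) hs')
        (hB i)
      have h2 : (avoid univ B S ∩ B i).card * M * 2 ^ Fintype.card V ≤
          (avoid univ B S).card * 2 ^ Fintype.card V := by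
        calc (avoid univ B S ∩ B i).card * M * 2 ^ Fintype.card V
            = ((avoid univ B S ∩ B i).card * 2 ^ Fintype.card V) * M := by ring
          _ ≤ ((avoid univ B S).card * (B i).card) * M := Nat.mul_le_mul_right _ h1
          _ = (avoid univ B S).card * ((B i).card * M) := by ring
          _ ≤ _ := Nat.mul_le_mul_left _ (hcard i)
      exact Nat.le_of_mul_le_mul_right h2 (by positivity))
  exact ⟨ω, fun i => hω i (Finset.mem_univ i)⟩

end Pool.Agent.Lib_MP_e12783
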