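import Pool.Agent.Lib_MP_e12783.Kill
import Pool.Agent.Lib_MP_e12783.ProdLLL

/-!
# The colouring of the hubs
-/

namespace Pool.Agent.Lib_MP_e12783

open Finset

/-- `Reach A H v s`: there is a directed path of positive length from `v` to `s` whose interior
vertices are outside `H`. -/
inductive Reach {V : Type} (A : V → V → Prop) (H : Set V) : V → V → Prop
  | arc {v s : V} : A v s → Reach A H v s
  | cons {v u s : V} : A v u → u ∉ H → Reach A H u s → Reach A H v s

theorem Reach.mono {V : Type} {A A' : V → V → Prop} {H : Set V} (h : ∀ v u, A v u → A' v u)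
    {v s : V} (hr : Reach A H v s) : Reach A' H v s := by
  induction hr with
  | arc ha => exact Reach.arc (h _ _ ha)
  | cons ha hu _ ih => exact Reach.cons (h _ _ ha) hu ih

variable {V : Type} [Fintype V] [DecidableEq V]

variable {N : V → Finset V} {H : Finset V} {m d : ℕ} {c : Bool}

omit [Fintype V] in
theorem kst_congr (χ χ' : V → Bool) (n : ℕ) : ∀ v,
    (∀ s ∈ H, Reach (fun v u => u ∈ N v) (H : Set V) v s → χ s = χ' s) →
    kst N H m d χ c n v → kst N H m d χ' c n v := by
  classical
  induction n with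
  | zero => intro v _ h; exact h
  | succ n ih =>
    intro v hv h
    have h' : d < ((N v).filter (Bad H χ c (kst N H m d χ c n))).card + m := h
    show d < ((N v).filter (Bad H χ' c (kst N H m d χ' c n))).card + m
    refine lt_of_lt_of_le h' (Nat.add_le_add_right (Finset.card_le_card ?_) _)
    intro u hu
    rw [Finset.mem_filter] at hu ⊢
    refine ⟨hu.1, ?_⟩
    rcases hu.2 with ⟨h1, h2⟩ | ⟨h1, h2⟩
    · refine Or.inl ⟨h1, ?_⟩
      rwa [← hv u h1 (Reach.arc hu.1)]
    · refine Or.inr ⟨h1, ih u (fun s hs hr => hv s hs (Reach.cons hu.1 ?_ hr)) h2⟩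
      simpa using h1

omit [Fintype V] in
theorem killed_congr (χ χ' : V → Bool) (v : V)
    (hv : ∀ s ∈ H, Reach (fun v u => u ∈ N v) (H : Set V) v s → χ s = χ' s)
    (h : Killed N H m d χ c v) : Killed N H m d χ' c v := by
  obtain ⟨n, hn⟩ := h
  exact ⟨n, kst_congr χ χ' n v hv hn⟩

open Classical in
/-- a good colouring of the hubs -/
theorem exists_hub_col (hN : ∀ v, (N v).card = d) {r : ℕ} {α : ℝ} (hα0 : 0 < α)
    (hα1 : α < 1) (hα : (1 + α ^ r) / 2 ≤ α) (hr : r ≠ 0) (K M : ℕ) (hM : 2 < M) (hK : 8 * K ≤ M)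
    (hαM : α ^ (d - r * m) * M ≤ 1)
    (hH : ∀ a ∈ H, (H.filter fun b => ∃ s ∈ H, Reach (fun v u => u ∈ N v) (H : Set V) a s ∧
      Reach (fun v u => u ∈ N v) (H : Set V) b s).card ≤ K) :
    ∃ χ : V → Bool, ∀ a ∈ H, ∀ c, ¬ Killed N H m d χ c a := by
  obtain ⟨χ, hχ⟩ := prod_lll (V := V) (ι := {a // a ∈ H} × Bool)
    (fun i => (univ : Finset (V → Bool)).filter fun χ => Killed N H m d χ i.2 i.1)
    (fun i => H.filter fun s => Reach (fun v u => u ∈ N v) (H : Set V) i.1 s)
    (by
      intro i χ χ' h hχ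
      rw [Finset.mem_filter] at hχ ⊢
      refine ⟨Finset.mem_univ _, killed_congr χ χ' _ (fun s hs hr => h s ?_) hχ.2⟩
      exact Finset.mem_filter.mpr ⟨hs, hr⟩)
    M (2 * K) hM (by omega)
    (by
      intro i
      have h1 : ((univ : Finset ({a // a ∈ H} × Bool)).filter fun j =>
          ¬ Disjoint (H.filter fun s => Reach (fun v u => u ∈ N v) (H : Set V) i.1 s)
            (H.filter fun s => Reach (fun v u => u ∈ N v) (H : Set V) j.1 s)) ⊆
          ((H.filter fun b => ∃ s ∈ H, Reach (fun v u => u ∈ N v) (H : Set V) i.1 s ∧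
            Reach (fun v u => u ∈ N v) (H : Set V) b s).subtype (fun a => a ∈ H)) ×ˢ
            (univ : Finset Bool) := by
        intro j hj
        rw [Finset.mem_filter] at hj
        obtain ⟨s, hs1, hs2⟩ := Finset.not_disjoint_iff.mp hj.2
        rw [Finset.mem_filter] at hs1 hs2
        rw [Finset.mem_product]
        refine ⟨?_, Finset.mem_univ _⟩
        rw [Finset.mem_subtype, Finset.mem_filter]
        exact ⟨j.1.2, s, hs1.1, hs1.2, hs2.2⟩
      refine (Finset.card_le_card h1).trans ?_
      rw [Finset.card_product, Finset.card_univ, Fintype.card_bool, mul_comm]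
      refine Nat.mul_le_mul_left _ ?_
      refine le_trans ?_ (hH i.1 i.1.2)
      rw [Finset.card_subtype]
      exact Finset.card_le_card (Finset.filter_subset _ _))
    (by
      intro i
      have h1 := card_killed_le (N := N) (H := H) (m := m) hN hα0 hα1 hα hr i.2 i.1
      have h2 : ((((univ : Finset (V → Bool)).filter fun χ =>
          Killed N H m d χ i.2 i.1).card * M : ℕ) : ℝ) ≤ ((2 ^ Fintype.card V : ℕ) : ℝ) := by
        push_cast
        calc _ ≤ α ^ (d - r * m) * 2 ^ Fintype.card V * M :=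
              mul_le_mul_of_nonneg_right h1 (by positivity)
          _ = (α ^ (d - r * m) * M) * 2 ^ Fintype.card V := by ring
          _ ≤ 1 * 2 ^ Fintype.card V := mul_le_mul_of_nonneg_right hαM (by positivity)
          _ = _ := one_mul _
      exact_mod_cast h2)
  refine ⟨χ, fun a ha c hk => hχ (⟨a, ha⟩, c) ?_⟩
  exact Finset.mem_filter.mpr ⟨Finset.mem_univ _, hk⟩

end Pool.Agent.Lib_MP_e12783
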