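import Mathlib

/-!
# Cross `r`-wise `t`-intersecting families of subsets of a finite set

If `α` satisfies `(1 + α ^ r) / 2 ≤ α ≤ 1` then the product of the (uniform) measures of `r` cross
`r`-wise `t`-intersecting families is at most `(α ^ r) ^ t`.
-/

namespace Pool.Agent.Lib_MP_e12783

open Finset

/-- the numerical inequality behind the induction step -/
theorem pow_mid_le {r : ℕ} {α y : ℝ} (hα0 : 0 < α) (hα1 : α < 1) (hα : (1 + α ^ r) / 2 ≤ α)
    (hr : r ≠ 0) (hy : α ^ r ≤ y) (hy1 : y ≤ 1) : ((1 + y) / 2) ^ r ≤ y := by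
  have hy0 : 0 < y := lt_of_lt_of_le (pow_pos hα0 r) hy
  obtain ⟨z, hz0, hz⟩ : ∃ z : ℝ, 0 ≤ z ∧ z ^ r = y :=
    ⟨y ^ ((r : ℝ)⁻¹), by positivity, Real.rpow_inv_natCast_pow hy0.le hr⟩
  have hz1 : z ≤ 1 := by
    by_contra h
    push Not at h
    have : (1 : ℝ) < z ^ r := one_lt_pow₀ h hr
    linarith
  have hzα : α ≤ z := by
    by_contra h
    push Not at h
    have : z ^ r < α ^ r := pow_lt_pow_left₀ h hz0 hr
    linarith
  -- convexity
  have hsum : (1 - z) / (1 - α) + (z - α) / (1 - α) = 1 := by
    have : (1 - α) ≠ 0 := by linarith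
    field_simp
    ring
  have hw1 : 0 ≤ (1 - z) / (1 - α) := div_nonneg (by linarith) (by linarith)
  have hw2 : 0 ≤ (z - α) / (1 - α) := div_nonneg (by linarith) (by linarith)
  have hconv := (convexOn_pow (𝕜 := ℝ) r).2 (Set.mem_Ici.mpr hα0.le)
    (Set.mem_Ici.mpr (zero_le_one' ℝ)) hw1 hw2 hsum
  have h1α : (1 - α) ≠ 0 := by linarith
  simp only [smul_eq_mul, one_pow, mul_one] at hconv
  have h2 : (1 - z) / (1 - α) * α + (z - α) / (1 - α) = z := by
    field_simp
    ring
  rw [h2] at hconv
  have h3 : (1 + z ^ r) / 2 ≤ z := by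
    have h4 : (1 - z) / (1 - α) * α ^ r ≤ (1 - z) / (1 - α) * (2 * α - 1) :=
      mul_le_mul_of_nonneg_left (by linarith) (div_nonneg (by linarith) (by linarith))
    have h5 : (1 - z) / (1 - α) * (2 * α - 1) + (z - α) / (1 - α) = 2 * z - 1 := by
      field_simp
      ring
    linarith
  calc ((1 + y) / 2) ^ r = ((1 + z ^ r) / 2) ^ r := by rw [hz]
    _ ≤ z ^ r := pow_le_pow_left₀ (by positivity) h3 r
    _ = y := hz

/-- the real inequality of the induction step -/
theorem prod_mid_le {r : ℕ} {α : ℝ} (hα0 : 0 < α) (hα1 : α < 1) (hα : (1 + α ^ r) / 2 ≤ α)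
    (hr : r ≠ 0) (t : ℕ) (a b : Fin r → ℝ) (ha : ∀ i, 0 ≤ a i) (hab : ∀ i, a i ≤ b i)
    (hB : ∏ i, b i ≤ (α ^ r) ^ t)
    (hA : ∀ i, a i * ∏ j ∈ univ.erase i, b j ≤ (α ^ r) ^ (t + 1)) :
    ∏ i, ((a i + b i) / 2) ≤ (α ^ r) ^ (t + 1) := by
  have hb : ∀ i, 0 ≤ b i := fun i => (ha i).trans (hab i)
  have hρ : 0 < α ^ r := pow_pos hα0 r
  by_cases h0 : ∃ i, b i = 0
  · obtain ⟨i, hi⟩ := h0
    have : (a i + b i) / 2 = 0 := by
      have := hab i
      have := ha i
      rw [hi] at *
      linarith
    rw [Finset.prod_eq_zero (Finset.mem_univ i) this]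
    positivity
  · push Not at h0
    have hbpos : ∀ i, 0 < b i := fun i => lt_of_le_of_ne (hb i) (Ne.symm (h0 i))
    set B : ℝ := ∏ i, b i with hBdef
    have hBpos : 0 < B := Finset.prod_pos fun i _ => hbpos i
    have hx : ∀ i, a i / b i ≤ min 1 ((α ^ r) ^ (t + 1) / B) := by
      intro i
      refine le_min ?_ ?_
      · rw [div_le_one (hbpos i)]
        exact hab i
      · rw [div_le_div_iff₀ (hbpos i) hBpos]
        have h1 : B = b i * ∏ j ∈ univ.erase i, b j := by
          rw [hBdef, Finset.mul_prod_erase _ _ (Finset.mem_univ i)]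
        have h2 := mul_le_mul_of_nonneg_right (hA i) (hb i)
        calc a i * B = a i * (∏ j ∈ univ.erase i, b j) * b i := by rw [h1]; ring
          _ ≤ _ := h2
    set y : ℝ := min 1 ((α ^ r) ^ (t + 1) / B) with hy
    have hyρ : α ^ r ≤ y := by
      refine le_min ?_ ?_
      · exact pow_le_one₀ hα0.le hα1.le
      · rw [le_div_iff₀ hBpos, pow_succ']
        exact mul_le_mul_of_nonneg_left hB hρ.le
    have hy1 : y ≤ 1 := min_le_left _ _
    have hy0 : 0 ≤ y := hρ.le.trans hyρ
    have h3 : ∏ i, ((a i + b i) / 2) = B * ∏ i, ((1 + a i / b i) / 2) := by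
      rw [hBdef, ← Finset.prod_mul_distrib]
      refine Finset.prod_congr rfl fun i _ => ?_
      have := (hbpos i).ne'
      field_simp
      ring
    have h4 : ∏ i : Fin r, ((1 + a i / b i) / 2) ≤ ((1 + y) / 2) ^ r := by
      calc ∏ i : Fin r, ((1 + a i / b i) / 2) ≤ ∏ _i : Fin r, ((1 + y) / 2) := by
            refine Finset.prod_le_prod (fun i _ => ?_) (fun i _ => ?_)
            · have := div_nonneg (ha i) (hb i)
              linarith
            · have := hx i
              linarith
        _ = _ := by rw [Finset.prod_const, Finset.card_univ, Fintype.card_fin]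
    rw [h3]
    calc B * ∏ i : Fin r, ((1 + a i / b i) / 2) ≤ B * ((1 + y) / 2) ^ r :=
          mul_le_mul_of_nonneg_left h4 hBpos.le
      _ ≤ B * y := mul_le_mul_of_nonneg_left (pow_mid_le hα0 hα1 hα hr hyρ hy1) hBpos.le
      _ ≤ B * ((α ^ r) ^ (t + 1) / B) :=
          mul_le_mul_of_nonneg_left (min_le_right _ _) hBpos.le
      _ = (α ^ r) ^ (t + 1) := by field_simp

/-- **Cross intersecting families.** -/
theorem cross_inter {β : Type} [DecidableEq β] {r : ℕ} {α : ℝ} (hα0 : 0 < α) (hα1 : α < 1)
    (hα : (1 + α ^ r) / 2 ≤ α) (hr : r ≠ 0) (G : Finset β) :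
    ∀ (t : ℕ) (D : Fin r → Finset (Finset β)), (∀ i, D i ⊆ G.powerset) →
      (∀ C : Fin r → Finset β, (∀ i, C i ∈ D i) → t ≤ (G.filter fun x => ∀ i, x ∈ C i).card) →
      ∏ i, ((D i).card / 2 ^ G.card : ℝ) ≤ (α ^ r) ^ t := by
  have hle1 : ∀ (G : Finset β) (D : Fin r → Finset (Finset β)), (∀ i, D i ⊆ G.powerset) →
      ∏ i, ((D i).card / 2 ^ G.card : ℝ) ≤ 1 := by
    intro G D hD
    refine Finset.prod_le_one (fun i _ => by positivity) (fun i _ => ?_)
    rw [div_le_one (by positivity)]
    have := Finset.card_le_card (hD i)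
    rw [Finset.card_powerset] at this
    exact_mod_cast this
  induction G using Finset.induction_on with
  | empty =>
    intro t D hD hC
    rcases Nat.eq_zero_or_pos t with rfl | ht
    · rw [pow_zero]
      exact hle1 ∅ D hD
    · have : ∃ i, D i = ∅ := by
        by_contra h
        push Not at h
        choose C hCD using h
        have := hC C hCD
        simp at this
        omega
      obtain ⟨i, hi⟩ := this
      rw [Finset.prod_eq_zero (Finset.mem_univ i) (by rw [hi]; simp)]
      positivity
  | insert x G hx ih =>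
    intro t D hD hC
    rcases Nat.eq_zero_or_pos t with rfl | ht
    · rw [pow_zero]
      exact hle1 _ D hD
    · obtain ⟨t, rfl⟩ : ∃ t', t = t' + 1 := ⟨t - 1, by omega⟩
      -- the two halves
      let D0 : Fin r → Finset (Finset β) := fun i => (D i).filter fun C => x ∉ C
      let D1 : Fin r → Finset (Finset β) := fun i => ((D i).filter fun C => x ∈ C).image
        fun C => C.erase x
      have hD0 : ∀ i, D0 i ⊆ G.powerset := by
        intro i C hC0
        rw [Finset.mem_filter] at hC0
        have h1 := Finset.mem_powerset.mp (hD i hC0.1)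
        rw [Finset.mem_powerset]
        intro y hy
        rcases Finset.mem_insert.mp (h1 hy) with rfl | h
        · exact absurd hy hC0.2
        · exact h
      have hD1 : ∀ i, D1 i ⊆ G.powerset := by
        intro i C hC1
        obtain ⟨C', hC', rfl⟩ := Finset.mem_image.mp hC1
        rw [Finset.mem_filter] at hC'
        have h1 := Finset.mem_powerset.mp (hD i hC'.1)
        rw [Finset.mem_powerset]
        intro y hy
        rw [Finset.mem_erase] at hy
        rcases Finset.mem_insert.mp (h1 hy.2) with rfl | h
        · exact absurd rfl hy.1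
        · exact h
      have hcard : ∀ i, (D i).card = (D0 i).card + (D1 i).card := by
        intro i
        have h1 : (D1 i).card = ((D i).filter fun C => x ∈ C).card := by
          refine Finset.card_image_of_injOn ?_
          intro C hC C' hC' h
          simp only [Finset.coe_filter, Set.mem_ofPred_eq] at hC hC'
          have h2 : insert x (C.erase x) = insert x (C'.erase x) := by
            simp only at h
            rw [h]
          rwa [Finset.insert_erase hC.2, Finset.insert_erase hC'.2] at h2
        rw [h1, add_comm]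
        exact (Finset.card_filter_add_card_filter_not (s := D i) (fun C => x ∈ C)).symm
      -- lifts
      have hlift : ∀ i, ∀ C' ∈ D0 i ∪ D1 i, ∃ C ∈ D i, C ⊆ insert x C' ∧ C' ⊆ C ∧
          (C' ∈ D0 i → x ∉ C) := by
        intro i C' hC'
        by_cases h0 : C' ∈ D0 i
        · rw [Finset.mem_filter] at h0
          exact ⟨C', h0.1, Finset.subset_insert _ _, Finset.Subset.refl _, fun _ => h0.2⟩
        · rcases Finset.mem_union.mp hC' with h | h
          · exact absurd h h0
          · obtain ⟨C, hC, rfl⟩ := Finset.mem_image.mp h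
            rw [Finset.mem_filter] at hC
            refine ⟨C, hC.1, ?_, Finset.erase_subset _ _, fun h => absurd h h0⟩
            rw [Finset.insert_erase hC.2]
      have hB := ih t (fun i => D0 i ∪ D1 i) (fun i => Finset.union_subset (hD0 i) (hD1 i)) (by
        intro C' hC'
        choose C hC1 hC2 hC3 hC4 using fun i => hlift i (C' i) (hC' i)
        have h1 := hC C hC1
        have h2 : ((insert x G).filter fun y => ∀ i, y ∈ C i) ⊆
            insert x (G.filter fun y => ∀ i, y ∈ C' i) := by
          intro y hy
          rw [Finset.mem_filter] at hy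
          rw [Finset.mem_insert, Finset.mem_filter]
          by_cases hyx : y = x
          · exact Or.inl hyx
          · refine Or.inr ⟨(Finset.mem_insert.mp hy.1).resolve_left hyx, fun i => ?_⟩
            exact (Finset.mem_insert.mp (hC2 i (hy.2 i))).resolve_left hyx
        have h3 := (Finset.card_le_card h2).trans (Finset.card_insert_le _ _)
        omega)
      have hA : ∀ i0, ((D0 i0).card / 2 ^ G.card : ℝ) *
          ∏ j ∈ univ.erase i0, (((D0 j ∪ D1 j).card : ℝ) / 2 ^ G.card) ≤ (α ^ r) ^ (t + 1) := by
        intro i0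
        have h := ih (t + 1) (Function.update (fun i => D0 i ∪ D1 i) i0 (D0 i0)) (by
          intro i
          by_cases hi : i = i0
          · subst hi
            rw [Function.update_self]
            exact hD0 i
          · rw [Function.update_of_ne hi]
            exact Finset.union_subset (hD0 i) (hD1 i)) (by
          intro C' hC'
          have hC'' : ∀ i, C' i ∈ D0 i ∪ D1 i := by
            intro i
            by_cases hi : i = i0
            · subst hi
              have := hC' i
              rw [Function.update_self] at this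
              exact Finset.mem_union_left _ this
            · have := hC' i
              rw [Function.update_of_ne hi] at this
              exact this
          have h0 : C' i0 ∈ D0 i0 := by
            have := hC' i0
            rwa [Function.update_self] at this
          choose C hC1 hC2 hC3 hC4 using fun i => hlift i (C' i) (hC'' i)
          have h1 := hC C hC1
          have h2 : ((insert x G).filter fun y => ∀ i, y ∈ C i) ⊆
              (G.filter fun y => ∀ i, y ∈ C' i) := by
            intro y hy
            rw [Finset.mem_filter] at hy ⊢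
            have hyx : y ≠ x := by
              rintro rfl
              exact hC4 i0 h0 (hy.2 i0)
            refine ⟨(Finset.mem_insert.mp hy.1).resolve_left hyx, fun i => ?_⟩
            exact (Finset.mem_insert.mp (hC2 i (hy.2 i))).resolve_left hyx
          exact h1.trans (Finset.card_le_card h2))
        rw [← Finset.mul_prod_erase _ _ (Finset.mem_univ i0), Function.update_self] at h
        have h5 : ∏ j ∈ univ.erase i0, ((((Function.update (fun i => D0 i ∪ D1 i) i0 (D0 i0)) j).card
            : ℝ) / 2 ^ G.card) = ∏ j ∈ univ.erase i0, (((D0 j ∪ D1 j).card : ℝ) / 2 ^ G.card) := by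
          refine Finset.prod_congr rfl fun j hj => ?_
          rw [Function.update_of_ne (Finset.ne_of_mem_erase hj)]
        rw [h5] at h
        exact h
      have hmid := prod_mid_le hα0 hα1 hα hr t
        (fun i => ((D0 i).card / 2 ^ G.card : ℝ)) (fun i => ((D0 i ∪ D1 i).card : ℝ) / 2 ^ G.card)
        (fun i => by positivity)
        (fun i => by
          refine div_le_div_of_nonneg_right ?_ (by positivity)
          exact_mod_cast Finset.card_le_card Finset.subset_union_left)
        hB hA
      refine le_trans (Finset.prod_le_prod (fun i _ => by positivity) (fun i _ => ?_)) hmid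
      rw [Finset.card_insert_of_notMem hx, pow_succ, hcard i]
      have h6 : ((D1 i).card : ℝ) ≤ ((D0 i ∪ D1 i).card : ℝ) := by
        exact_mod_cast Finset.card_le_card Finset.subset_union_right
      have h7 : (0 : ℝ) < 2 ^ G.card := by positivity
      rw [← add_div, div_div, div_le_div_iff_of_pos_right (by positivity)]
      push_cast
      linarith

/-- one family -/
theorem inter_card {β : Type} [Fintype β] [DecidableEq β] {r : ℕ} {α : ℝ} (hα0 : 0 < α)
    (hα1 : α < 1) (hα : (1 + α ^ r) / 2 ≤ α) (hr : r ≠ 0) (t : ℕ) (D : Finset (Finset β))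
    (hD : ∀ C : Fin r → Finset β, (∀ i, C i ∈ D) →
      t ≤ ((univ : Finset β).filter fun x => ∀ i, x ∈ C i).card) :
    (D.card : ℝ) ≤ α ^ t * 2 ^ Fintype.card β := by
  have h := cross_inter hα0 hα1 hα hr (univ : Finset β) t (fun _ => D)
    (fun _ C _ => Finset.mem_powerset.mpr (Finset.subset_univ _)) (fun C hC => hD C hC)
  rw [Finset.prod_const, Finset.card_univ, Finset.card_univ, Fintype.card_fin, ← pow_mul,
    mul_comm r t, pow_mul] at h
  have h2 := le_of_pow_le_pow_left₀ hr (by positivity) h
  rwa [div_le_iff₀ (by positivity)] at h2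

end Pool.Agent.Lib_MP_e12783
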