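import Pool.Agent.Lib_MP_e12783.Inter

/-!
# Killed vertices

`N v` is a set of `d` out-neighbours of `v`, `H` is the set of hubs, `χ` a colouring of the hubs and
`c` a colour. A vertex is killed (in the colour `c`) if more than `d - m` of its out-neighbours are
hubs of the other colour or killed vertices outside `H` (least fixed point, in stages).
-/

namespace Pool.Agent.Lib_MP_e12783

open Finset

variable {V : Type} [Fintype V] [DecidableEq V]

/-- `u` is bad for the colour `c`: a hub of the other colour or an element of `K` outside `H` -/
def Bad (H : Finset V) (χ : V → Bool) (c : Bool) (K : V → Prop) (u : V) : Prop :=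
  (u ∈ H ∧ χ u ≠ c) ∨ (u ∉ H ∧ K u)

open Classical in
/-- the `n`-th stage of killed vertices -/
def kst (N : V → Finset V) (H : Finset V) (m d : ℕ) (χ : V → Bool) (c : Bool) : ℕ → V → Prop
  | 0 => fun _ => False
  | n + 1 => fun v => d < ((N v).filter (Bad H χ c (kst N H m d χ c n))).card + m

/-- killed vertices -/
def Killed (N : V → Finset V) (H : Finset V) (m d : ℕ) (χ : V → Bool) (c : Bool) (v : V) : Prop :=
  ∃ n, kst N H m d χ c n v

variable {N : V → Finset V} {H : Finset V} {m d : ℕ} {χ : V → Bool} {c : Bool}

omit [Fintype V] in
theorem Bad.mono {K K' : V → Prop} (h : ∀ u, K u → K' u) {u : V} (hb : Bad H χ c K u) :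
    Bad H χ c K' u := hb.imp id fun h' => ⟨h'.1, h u h'.2⟩

omit [Fintype V] in
theorem kst_mono (n : ℕ) : ∀ v, kst N H m d χ c n v → kst N H m d χ c (n + 1) v := by
  classical
  induction n with
  | zero => intro v h; exact h.elim
  | succ n ih =>
    intro v h
    have h' : d < ((N v).filter (Bad H χ c (kst N H m d χ c n))).card + m := h
    show d < ((N v).filter (Bad H χ c (kst N H m d χ c (n + 1)))).card + m
    refine lt_of_lt_of_le h' (Nat.add_le_add_right (Finset.card_le_card ?_) _)
    intro u hu
    rw [Finset.mem_filter] at hu ⊢
    exact ⟨hu.1, hu.2.mono ih⟩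

omit [Fintype V] in
theorem kst_mono_le {n k : ℕ} (h : n ≤ k) : ∀ v, kst N H m d χ c n v → kst N H m d χ c k v := by
  induction h with
  | refl => exact fun _ h => h
  | step _ ih => exact fun v hv => kst_mono _ v (ih v hv)

open Classical in
omit [Fintype V] in
/-- a vertex which is not killed has few bad out-neighbours -/
theorem card_bad_le {v : V} (h : ¬ Killed N H m d χ c v) :
    ((N v).filter (Bad H χ c (Killed N H m d χ c))).card + m ≤ d := by
  by_contra hlt
  push Not at hlt
  apply h
  have hex : ∃ n, ∀ u ∈ N v, Killed N H m d χ c u → kst N H m d χ c n u := by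
    have : ∀ s : Finset V, ∃ n, ∀ u ∈ s, Killed N H m d χ c u → kst N H m d χ c n u := by
      intro s
      induction s using Finset.induction_on with
      | empty => exact ⟨0, fun u hu => absurd hu (Finset.notMem_empty u)⟩
      | insert x s _ ih =>
        obtain ⟨n, hn⟩ := ih
        by_cases hx : Killed N H m d χ c x
        · obtain ⟨k, hk⟩ := hx
          refine ⟨max n k, fun u hu hK => ?_⟩
          rcases Finset.mem_insert.mp hu with rfl | hu
          · exact kst_mono_le (le_max_right _ _) _ hk
          · exact kst_mono_le (le_max_left _ _) _ (hn u hu hK)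
        · refine ⟨n, fun u hu hK => ?_⟩
          rcases Finset.mem_insert.mp hu with rfl | hu
          · exact absurd hK hx
          · exact hn u hu hK
    exact this (N v)
  obtain ⟨n, hn⟩ := hex
  refine ⟨n + 1, ?_⟩
  show d < ((N v).filter (Bad H χ c (kst N H m d χ c n))).card + m
  refine lt_of_lt_of_le hlt (Nat.add_le_add_right (Finset.card_le_card ?_) _)
  intro u hu
  rw [Finset.mem_filter] at hu ⊢
  refine ⟨hu.1, ?_⟩
  rcases hu.2 with h1 | h1
  · exact Or.inl h1
  · exact Or.inr ⟨h1.1, hn u hu.1 h1.2⟩

omit [Fintype V] in
/-- no vertex is killed in both colours -/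
theorem not_killed_both (hN : ∀ v, (N v).card = d) (hm : 2 * m ≤ d) (hd : 0 < d) (v : V)
    (h1 : Killed N H m d χ true v) (h2 : Killed N H m d χ false v) : False := by
  classical
  have key : ∀ n v, kst N H m d χ true n v → kst N H m d χ false n v → False := by
    intro n
    induction n with
    | zero => intro v h _; exact h
    | succ n ih =>
      intro v h1 h2
      have h1' : d < ((N v).filter (Bad H χ true (kst N H m d χ true n))).card + m := h1
      have h2' : d < ((N v).filter (Bad H χ false (kst N H m d χ false n))).card + m := h2
      have h3 : (((N v).filter (Bad H χ true (kst N H m d χ true n))) ∩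
          ((N v).filter (Bad H χ false (kst N H m d χ false n)))).Nonempty := by
        rw [← Finset.card_pos]
        have h4 := Finset.card_union_add_card_inter
          ((N v).filter (Bad H χ true (kst N H m d χ true n)))
          ((N v).filter (Bad H χ false (kst N H m d χ false n)))
        have h5 : (((N v).filter (Bad H χ true (kst N H m d χ true n))) ∪
          ((N v).filter (Bad H χ false (kst N H m d χ false n)))).card ≤ d := by
          rw [← hN v]
          exact Finset.card_le_card (Finset.union_subset (Finset.filter_subset _ _)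
            (Finset.filter_subset _ _))
        omega
      obtain ⟨u, hu⟩ := h3
      rw [Finset.mem_inter, Finset.mem_filter, Finset.mem_filter] at hu
      obtain ⟨⟨_, ha⟩, _, hb⟩ := hu
      rcases ha with ⟨ha1, ha2⟩ | ⟨ha1, ha2⟩
      · rcases hb with ⟨_, hb2⟩ | ⟨hb1, _⟩
        · cases hχ : χ u
          · exact hb2 hχ
          · exact ha2 hχ
        · exact hb1 ha1
      · rcases hb with ⟨hb1, _⟩ | ⟨_, hb2⟩
        · exact ha1 hb1
        · exact ih u ha2 hb2
  obtain ⟨n, hn⟩ := h1
  obtain ⟨k, hk⟩ := h2
  exact key (max n k) v (kst_mono_le (le_max_left _ _) _ hn) (kst_mono_le (le_max_right _ _) _ hk)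

open Classical in
/-- colourings killing the same vertex in the same colour have a common set of hubs of the other
colour of size at least `d - r m` -/
theorem killed_inter (hN : ∀ v, (N v).card = d) {r : ℕ} (hr : r ≠ 0) (χ : Fin r → V → Bool)
    (c : Bool) (n : ℕ) : ∀ v, (∀ i, kst N H m d (χ i) c n v) →
      d ≤ (univ.filter fun x : V => ∀ i, χ i x ≠ c).card + r * m := by
  induction n with
  | zero => intro v h; exact (h ⟨0, Nat.pos_of_ne_zero hr⟩).elim
  | succ n ih =>
    intro v h
    let A : Fin r → Finset V := fun i => (N v).filter (Bad H (χ i) c (kst N H m d (χ i) c n))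
    have hA : ∀ i, d < (A i).card + m := h
    have hAN : ∀ i, A i ⊆ N v := fun i => Finset.filter_subset _ _
    -- the intersection is large
    have hint : ∀ s : Finset (Fin r), d ≤ ((N v).filter fun u => ∀ i ∈ s, u ∈ A i).card +
        s.card * m := by
      intro s
      induction s using Finset.induction_on with
      | empty =>
        simp only [Finset.notMem_empty, false_imp_iff, implies_true, Finset.filter_true,
          Finset.card_empty, zero_mul, add_zero]
        rw [hN v]
      | insert i s hi ihs =>
        have h1 : ((N v).filter fun u => ∀ i ∈ s, u ∈ A i) ⊆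
            ((N v).filter fun u => ∀ j ∈ insert i s, u ∈ A j) ∪ (N v \ A i) := by
          intro u hu
          rw [Finset.mem_filter] at hu
          by_cases hui : u ∈ A i
          · refine Finset.mem_union_left _ (Finset.mem_filter.mpr ⟨hu.1, fun j hj => ?_⟩)
            rcases Finset.mem_insert.mp hj with rfl | hj
            · exact hui
            · exact hu.2 j hj
          · exact Finset.mem_union_right _ (Finset.mem_sdiff.mpr ⟨hu.1, hui⟩)
        have h2 := (Finset.card_le_card h1).trans (Finset.card_union_le _ _)
        have h3 : (N v \ A i).card + (A i).card = d := by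
          rw [Finset.card_sdiff_add_card_eq_card (hAN i), hN v]
        have h4 := hA i
        rw [Finset.card_insert_of_notMem hi, Nat.add_mul, one_mul]
        omega
    have hint' := hint univ
    rw [Finset.card_univ, Fintype.card_fin] at hint'
    by_cases hex : ∃ u ∈ N v, (∀ i, u ∈ A i) ∧ u ∉ H
    · obtain ⟨u, _, hu2, hu3⟩ := hex
      refine ih u fun i => ?_
      have h5 := (Finset.mem_filter.mp (hu2 i)).2
      rcases h5 with h5 | h5
      · exact absurd h5.1 hu3
      · exact h5.2
    · push Not at hex
      refine hint'.trans (Nat.add_le_add_right (Finset.card_le_card ?_) _)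
      intro u hu
      rw [Finset.mem_filter] at hu
      have hu2 : ∀ i, u ∈ A i := fun i => hu.2 i (Finset.mem_univ i)
      have huH := hex u hu.1 hu2
      rw [Finset.mem_filter]
      refine ⟨Finset.mem_univ u, fun i => ?_⟩
      have h5 := (Finset.mem_filter.mp (hu2 i)).2
      rcases h5 with h5 | h5
      · exact h5.2
      · exact absurd huH h5.1

open Classical in
/-- the number of colourings killing a given vertex -/
theorem card_killed_le (hN : ∀ v, (N v).card = d) {r : ℕ} {α : ℝ} (hα0 : 0 < α)
    (hα1 : α < 1) (hα : (1 + α ^ r) / 2 ≤ α) (hr : r ≠ 0) (c : Bool) (v : V) :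
    (((univ : Finset (V → Bool)).filter fun χ => Killed N H m d χ c v).card : ℝ) ≤
      α ^ (d - r * m) * 2 ^ Fintype.card V := by
  let f : (V → Bool) → Finset V := fun χ => univ.filter fun x => χ x ≠ c
  have hf : Function.Injective f := by
    intro χ χ' h
    funext x
    have h1 : x ∈ f χ ↔ x ∈ f χ' := by rw [h]
    simp only [f, Finset.mem_filter, Finset.mem_univ, true_and] at h1
    revert h1
    cases χ x <;> cases χ' x <;> cases c <;> simp
  have hcard : ((univ : Finset (V → Bool)).filter fun χ => Killed N H m d χ c v).card =
      (((univ : Finset (V → Bool)).filter fun χ => Killed N H m d χ c v).image f).card :=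
    (Finset.card_image_of_injective _ hf).symm
  rw [hcard]
  refine inter_card hα0 hα1 hα hr (d - r * m) _ ?_
  intro C hC
  choose χ hχ1 hχ2 using fun i => Finset.mem_image.mp (hC i)
  have hk : ∀ i, Killed N H m d (χ i) c v := fun i => (Finset.mem_filter.mp (hχ1 i)).2
  choose n hn using hk
  have hn' : ∀ i, kst N H m d (χ i) c (Finset.univ.sup n) v := fun i =>
    kst_mono_le (Finset.le_sup (Finset.mem_univ i)) _ (hn i)
  have h1 := killed_inter hN hr χ c _ v hn'
  have h2 : ((univ : Finset V).filter fun x => ∀ i, x ∈ C i) =
      univ.filter fun x : V => ∀ i, χ i x ≠ c := by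
    ext x
    simp only [Finset.mem_filter, Finset.mem_univ, true_and]
    constructor
    · intro h i
      have := h i
      rw [← hχ2 i] at this
      simpa [f] using this
    · intro h i
      rw [← hχ2 i]
      simpa [f] using h i
  rw [h2]
  omega

end Pool.Agent.Lib_MP_e12783
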